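import Pool.Agent.H77.RZ.Defs

/-!
# Rank zero over `F(t)`: statements of the modules
-/

set_option autoImplicit false

namespace Pool.RZ

open Polynomial Matrix Pool.AVR Pool.AVS

/-! ### Part 1: algebra of the classes -/

/-- LM: base change by a multiplication. -/
def LMStmt : Prop :=
  ∀ (K : Type) [Field K] (a b c : K) (h h' s : K[X]), IsCoprime s (cub a b c) →
    cub a b c ∣ h * s ^ 2 - h' →
    ∃ g : Matrix (Fin 3) (Fin 3) K, g.det ≠ 0 ∧ gᵀ * gr0 a b c h * g = gr0 a b c h' ∧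
      gᵀ * gr1 a b c h * g = gr1 a b c h'

/-- NUN: the determinant of the Gram matrix of an integral polynomial is a polynomial `-ν`;
`p` is a unit modulo `(P, f)` if and only if `P` does not divide `ν`. -/
def NUNStmt : Prop :=
  ∀ (F : Type) [Field F] (f : F[X] × F[X] × F[X]) (p : F[X][X]),
    (∀ i j, ∃ x y : F[X], g0 f (lf p) i j = rf x ∧ g1 f (lf p) i j = rf y) ∧
    ∃ ν : F[X], Algebra.norm (RatFunc F) (AdjoinRoot.mk (cubK f) (lf p)) = rf ν ∧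
      (g0 f (lf p)).det = -rf ν ∧
      ∀ P : F[X], Irreducible P → (UnP P f p ↔ ¬ P ∣ ν)

/-- UPM: units modulo `(P, f)`. -/
def UPMStmt : Prop :=
  ∀ (F : Type) [Field F] (P : F[X]) (f : F[X] × F[X] × F[X]),
    (∀ p p' : F[X][X], UnP P f p → UnP P f p' → UnP P f (p * p')) ∧
    (∀ p : F[X][X], UnP P f (1 + C P * p)) ∧
    (∀ h h' : (RatFunc F)[X], US P f h → US P f h' → US P f (h * h')) ∧
    (∀ h : (RatFunc F)[X], TR P f h → US P f h)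

/-- USE: the lattice of a unit class. -/
def USEStmt : Prop :=
  ∀ (F : Type) [Field F] (P : F[X]) (f : F[X] × F[X] × F[X]) (h : (RatFunc F)[X]),
    Irreducible P → US P f h →
    ∃ g : Matrix (Fin 3) (Fin 3) (RatFunc F), g.det ≠ 0 ∧ GI (IP P) (gᵀ * g0 f h * g) ∧
      MI (IP P) (gᵀ * g1 f h * g)

/-- TRE: the lattice of a trivial class, with a common isotropic vector modulo `P`. -/
def TREStmt : Prop :=
  ∀ (F : Type) [Field F] (P : F[X]) (f : F[X] × F[X] × F[X]) (h : (RatFunc F)[X]),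
    Irreducible P → TR P f h →
    ∃ g : Matrix (Fin 3) (Fin 3) (RatFunc F), g.det ≠ 0 ∧ GI (IP P) (gᵀ * g0 f h * g) ∧
      MI (IP P) (gᵀ * g1 f h * g) ∧ (gᵀ * g0 f h * g) 0 0 / rf P ∈ IP P ∧
      (gᵀ * g1 f h * g) 0 0 / rf P ∈ IP P

/-- INF: the lattice at infinity, when the cubic is irreducible at infinity. -/
def INFStmt : Prop :=
  ∀ (F : Type) [Field F], (2 : F) ≠ 0 → ∀ (n : ℕ) (f : F[X] × F[X] × F[X]), f ∈ Fam F n →
    NR (top3 n f) → ∀ h : (RatFunc F)[X], IsCoprime h (cubK f) →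
    IsSquare (Algebra.norm (RatFunc F) (AdjoinRoot.mk (cubK f) h)) →
    ∃ g : Matrix (Fin 3) (Fin 3) (RatFunc F), g.det ≠ 0 ∧ GI (Iinf F) (gᵀ * g0 f h * g) ∧
      MI (Iinf F) (((RatFunc.X : RatFunc F) ^ (2 * n))⁻¹ • (gᵀ * g1 f h * g))

/-- KY: every class which is locally trivial at `0` and `1` and the class of a unit elsewhere is
represented by an integral matrix, with common isotropic vectors at `0` and `1`. -/
def KYStmt : Prop :=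
  ∀ (F : Type) [Field F] [Finite F], (2 : F) ≠ 0 → ∀ (n : ℕ) (f : F[X] × F[X] × F[X]),
    f ∈ Fm F n → ∀ h : (RatFunc F)[X], IsCoprime h (cubK f) →
    IsSquare (Algebra.norm (RatFunc F) (AdjoinRoot.mk (cubK f) h)) →
    (∀ P : F[X], P.Monic → Irreducible P → P ≠ pc 0 → P ≠ pc 1 → US P f h) →
    TR (pc 0) f h → TR (pc 1) f h →
    ∃ (m : ℕ) (B : Matrix (Fin 3) (Fin 3) F[X]), Bd n m B ∧
      RepH (kf f).1 (kf f).2.1 (kf f).2.2 h (AA (RatFunc F))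
        (B.map (algebraMap F[X] (RatFunc F))) ∧ TrivC 0 B ∧ TrivC 1 B

/-- CN: the counting inequality for one curve. -/
def CNStmt : Prop :=
  ∀ (F : Type) [Field F] [Finite F], (2 : F) ≠ 0 → ∀ (n : ℕ) (f : F[X] × F[X] × F[X]),
    1 ≤ n → f ∈ Fm F n →
    (STR f).Finite ∧ ((STR f).ncard : ℝ) ≤ ∑ m ∈ Finset.range (n + 1),
      ({B : Matrix (Fin 3) (Fin 3) F[X] | Bd n m B ∧ (AA F[X] * B).charpoly = cubP f ∧
        TrivC 0 B ∧ TrivC 1 B}.ncard : ℝ) / (GG F m).ncard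

/-! ### Part 2: the classes of the points of the twists -/

/-- PN: norms of the classes of points. -/
def PNStmt : Prop :=
  ∀ (F : Type) [Field F] (f : F[X] × F[X] × F[X]) (d : F[X]) (x y : RatFunc F),
    OnC (kf (tw d f)).1 (kf (tw d f)).2.1 (kf (tw d f)).2.2 x y →
    Algebra.norm (RatFunc F) (AdjoinRoot.mk (cubK f) (C x - C (rf d) * X)) = y ^ 2 ∧
    (y ≠ 0 → IsCoprime (C x - C (rf d) * X) (cubK f))

/-- DQ: the discriminant and a value of the cubic. -/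
def DQStmt : Prop :=
  ∀ (F : Type) [Field F] (P u D a b c : F[X]), Irreducible P → ¬ P ∣ D →
    P ^ 2 ∣ u ^ 3 + a * u ^ 2 * D + b * u * D ^ 2 + c * D ^ 3 →
    P ∣ 3 * u ^ 2 + 2 * a * u * D + b * D ^ 2 → P ^ 2 ∣ disc a b c

/-- PU: outside the divisors of `d` the class of a point of the twist is the class of a unit. -/
def PUStmt : Prop :=
  ∀ (F : Type) [Field F], (2 : F) ≠ 0 → ∀ (f : F[X] × F[X] × F[X]) (d : F[X]) (x y : RatFunc F),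
    d ≠ 0 → OnC (kf (tw d f)).1 (kf (tw d f)).2.1 (kf (tw d f)).2.2 x y → y ≠ 0 →
    ∀ P : F[X], Irreducible P → ¬ P ∣ d → ¬ P ^ 2 ∣ disc f.1 f.2.1 f.2.2 →
      US P f (C x - C (rf d) * X)

/-- PT: at a simple divisor of `d` the class of a point is trivial, or comes from a singular
point. -/
def PTStmt : Prop :=
  ∀ (F : Type) [Field F], (2 : F) ≠ 0 → ∀ (f : F[X] × F[X] × F[X]) (d : F[X]) (x y : RatFunc F)
    (c : F), OnC (kf (tw d f)).1 (kf (tw d f)).2.1 (kf (tw d f)).2.2 x y → y ≠ 0 →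
    pc c ∣ d → ¬ pc c ^ 2 ∣ d →
      TR (pc c) f (C x - C (rf d) * X) ∨ Sing c f (C x - C (rf d) * X)

/-- SQ: squares modulo a cubic of type `T12` over a finite field. -/
def SQStmt : Prop :=
  ∀ (k : Type) [Field k] [Finite k], (2 : k) ≠ 0 → ∀ e β γ : k,
    (∀ x : k, x ^ 2 + β * x + γ ≠ 0) → ∀ p : k[X], p.eval e ≠ 0 → IsSquare (p.eval e) →
    IsSquare (Algebra.norm k (AdjoinRoot.mk (cub (β - e) (γ - e * β) (-(e * γ))) p)) →
    ∃ w : k[X], cub (β - e) (γ - e * β) (-(e * γ)) ∣ p - w ^ 2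

/-- TY: a unit class at a place of type `T12` is trivial or `Minus`. -/
def TYStmt : Prop :=
  ∀ (F : Type) [Field F] [Finite F], (2 : F) ≠ 0 → ∀ (f : F[X] × F[X] × F[X]) (c : F),
    T12 (evc c f) → ∀ h : (RatFunc F)[X],
    IsSquare (Algebra.norm (RatFunc F) (AdjoinRoot.mk (cubK f) h)) → US (pc c) f h →
      TR (pc c) f h ∨ Minus c f h

/-- QF: the binary form of an element modulo a quadratic polynomial. -/
def QFStmt : Prop :=
  ∀ (k : Type) [Field k] (e β γ : k) (p : k[X]),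
    tau (β - e) (γ - e * β) (-(e * γ)) (p * (X - C e) * 1) *
        tau (β - e) (γ - e * β) (-(e * γ)) (p * (X - C e) * X ^ 2) -
      tau (β - e) (γ - e * β) (-(e * γ)) (p * (X - C e) * X) ^ 2 =
      -Algebra.norm k (AdjoinRoot.mk (X ^ 2 + C β * X + C γ) p) ∧
    Algebra.norm k (AdjoinRoot.mk (cub (β - e) (γ - e * β) (-(e * γ))) p) =
      p.eval e * Algebra.norm k (AdjoinRoot.mk (X ^ 2 + C β * X + C γ) p) ∧
    tau (β - e) (γ - e * β) (-(e * γ)) (p * (X ^ 2 + C β * X + C γ)) = p.eval e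

/-- PL: the lattice attached to a unit class times a singular class. -/
def PLStmt : Prop :=
  ∀ (F : Type) [Field F] (f : F[X] × F[X] × F[X]) (c : F) (h h' s s' : (RatFunc F)[X])
    (p : F[X][X]) (u D v : F[X]) (i : ℕ), Irreducible (cubK f) →
    cubK f ∣ h * s ^ 2 - lf p → UnP (pc c) f p →
    cubK f ∣ h' * s' ^ 2 - lf (C (pc c) * (C u - C D * X)) → ¬ pc c ∣ D → ¬ pc c ∣ v →
    ¬ pc c ∣ 3 * u ^ 2 + 2 * f.1 * u * D + f.2.1 * D ^ 2 →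
    u ^ 3 + f.1 * u ^ 2 * D + f.2.1 * u * D ^ 2 + f.2.2 * D ^ 3 = pc c ^ (2 * i + 1) * v ^ 2 →
    ∃ g : Matrix (Fin 3) (Fin 3) (RatFunc F), g.det ≠ 0 ∧
      (gᵀ * g0 f (h * h') * g) 0 0 = rf v ^ 2 * tau (kf f).1 (kf f).2.1 (kf f).2.2 (lf (p *
        (C (D ^ 2) * X ^ 2 + C (u * D + f.1 * D ^ 2) * X +
          C (u ^ 2 + f.1 * u * D + f.2.1 * D ^ 2)))) ∧
      (∀ j : Fin 2, (gᵀ * g0 f (h * h') * g) 0 j.succ = rf (pc c) ^ (i + 1) * rf v ^ 2 *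
        tau (kf f).1 (kf f).2.1 (kf f).2.2 (lf (p * (C u - C D * X) * X ^ (j : ℕ)))) ∧
      ∀ j k : Fin 2, (gᵀ * g0 f (h * h') * g) j.succ k.succ = rf (pc c) *
        tau (kf f).1 (kf f).2.1 (kf f).2.2 (lf (p * (C u - C D * X) ^ 3 *
          X ^ ((j : ℕ) + (k : ℕ))))

/-- PA: nontrivial unit class times singular class. -/
def PAStmt : Prop :=
  ∀ (F : Type) [Field F] [Finite F], (2 : F) ≠ 0 → ∀ (f : F[X] × F[X] × F[X]) (c : F),
    Irreducible (cubK f) → T12 (evc c f) → ∀ h h' : (RatFunc F)[X],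
    IsSquare (Algebra.norm (RatFunc F) (AdjoinRoot.mk (cubK f) h)) →
    Minus c f h → Sing c f h' → OA c (g0 f (h * h'))

/-- PB: trivial class times singular class. -/
def PBStmt : Prop :=
  ∀ (F : Type) [Field F] [Finite F], (2 : F) ≠ 0 → ∀ (f : F[X] × F[X] × F[X]) (c : F),
    Irreducible (cubK f) → T12 (evc c f) → ∀ h h' : (RatFunc F)[X],
    TR (pc c) f h → Sing c f h' → EL (IP (pc c)) (g0 f (h * h'))

/-- PC: singular class times singular class. -/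
def PCStmt : Prop :=
  ∀ (F : Type) [Field F] [Finite F], (2 : F) ≠ 0 → ∀ (f : F[X] × F[X] × F[X]) (c : F),
    Irreducible (cubK f) → T12 (evc c f) → ∀ h h' : (RatFunc F)[X],
    Sing c f h → Sing c f h' → EL (IP (pc c)) (g0 f (h * h'))

/-! ### Part 3: reciprocity -/

/-- RC1: gluing. -/
def RC1Stmt : Prop :=
  ∀ (F : Type) [Field F] [Finite F], (2 : F) ≠ 0 → ∀ (c : F)
    (G : Matrix (Fin 3) (Fin 3) (RatFunc F)) (ε : RatFunc F), Gᵀ = G → ε ≠ 0 →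
    G.det = -ε ^ 2 → (∀ P : F[X], P.Monic → Irreducible P → P ≠ pc c → EL (IP P) G) →
    OA c G → EL (Iinf F) G →
    ∃ (g : Matrix (Fin 3) (Fin 3) (RatFunc F)) (G' : Matrix (Fin 3) (Fin 3) F[X]) (δ : F),
      g.det ≠ 0 ∧ gᵀ * G * g = G'.map (algebraMap F[X] (RatFunc F)) ∧ δ ≠ 0 ∧
      G'.det = C δ * pc c ^ 2

/-- RC2: splitting. -/
def RC2Stmt : Prop :=
  ∀ (F : Type) [Field F] [Finite F], (2 : F) ≠ 0 → ∀ (c : F)
    (G : Matrix (Fin 3) (Fin 3) F[X]) (δ : F), Gᵀ = G → δ ≠ 0 → G.det = C δ * pc c ^ 2 →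
    EL (Iinf F) (G.map (algebraMap F[X] (RatFunc F))) →
    ∃ (γ G' : Matrix (Fin 3) (Fin 3) F[X]) (d : Fin 3 → ℤ) (δ' : F), γ.det ≠ 0 ∧
      γᵀ * G * γ = G' ∧ δ' ≠ 0 ∧ G'.det = C δ' * pc c ^ 2 ∧ d 0 + d 1 + d 2 = 1 ∧ d 0 ≤ d 1 ∧
      d 1 ≤ d 2 ∧ ∀ i j, G' i j ≠ 0 → ((G' i j).natDegree : ℤ) ≤ d i + d j

/-- RC3: such a form is isotropic. -/
def RC3Stmt : Prop :=
  ∀ (F : Type) [Field F] [Finite F], (2 : F) ≠ 0 → ∀ (c : F)
    (G : Matrix (Fin 3) (Fin 3) F[X]) (d : Fin 3 → ℤ) (δ : F), Gᵀ = G → δ ≠ 0 →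
    G.det = C δ * pc c ^ 2 → d 0 + d 1 + d 2 = 1 → d 0 ≤ d 1 → d 1 ≤ d 2 →
    (∀ i j, G i j ≠ 0 → ((G i j).natDegree : ℤ) ≤ d i + d j) →
    ∃ z : Fin 3 → F[X], z ≠ 0 ∧ bil G z z = 0

/-- RC4: at `t = c` the form is anisotropic. -/
def RC4Stmt : Prop :=
  ∀ (F : Type) [Field F], (2 : F) ≠ 0 → ∀ (c : F) (G : Matrix (Fin 3) (Fin 3) (RatFunc F)),
    Gᵀ = G → OA c G → ∀ z : Fin 3 → RatFunc F, bil G z z = 0 → z = 0

/-- RCP: reciprocity. -/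
def RCPStmt : Prop :=
  ∀ (F : Type) [Field F] [Finite F], (2 : F) ≠ 0 → ∀ (c : F)
    (G : Matrix (Fin 3) (Fin 3) (RatFunc F)) (ε : RatFunc F), Gᵀ = G → ε ≠ 0 →
    G.det = -ε ^ 2 → (∀ P : F[X], P.Monic → Irreducible P → P ≠ pc c → EL (IP P) G) →
    EL (Iinf F) G → ¬ OA c G

/-- PR: reciprocity for the product of two classes. -/
def PRStmt : Prop :=
  ∀ (F : Type) [Field F] [Finite F], (2 : F) ≠ 0 → ∀ (n : ℕ) (f : F[X] × F[X] × F[X]),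
    f ∈ Fm F n → 1 ≤ n → ∀ (h : (RatFunc F)[X]), IsCoprime h (cubK f) →
    IsSquare (Algebra.norm (RatFunc F) (AdjoinRoot.mk (cubK f) h)) →
    ∀ c : F, (∀ P : F[X], P.Monic → Irreducible P → P ≠ pc c → EL (IP P) (g0 f h)) →
      ¬ OA c (g0 f h)

/-- CB: if there is no nontrivial class in `STR f`, then one of the four twists has no nontrivial
class. -/
def CBStmt : Prop :=
  ∀ (F : Type) [Field F] [Finite F], (2 : F) ≠ 0 → ∀ (n : ℕ) (f : F[X] × F[X] × F[X]),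
    f ∈ Fm F n → 1 ≤ n → STR f = ∅ →
    ∃ d ∈ ({1, pc 0, pc 1, pc 0 * pc 1} : Set F[X]), ∀ x y : RatFunc F,
      OnC (kf (tw d f)).1 (kf (tw d f)).2.1 (kf (tw d f)).2.2 x y → y ≠ 0 →
      ∃ u : (RatFunc F)[X], cubK f ∣ (C x - C (rf d) * X) - u ^ 2

open Classical in
/-- KD: descent on the twists. -/
def KDStmt : Prop :=
  ∀ (F : Type) [Field F] [Finite F], (2 : F) ≠ 0 → ∀ (f : F[X] × F[X] × F[X]) (d : F[X]), d ≠ 0 →
    Irreducible (cubK f) → (cubK f).Separable → (∀ x y : RatFunc F,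
      OnC (kf (tw d f)).1 (kf (tw d f)).2.1 (kf (tw d f)).2.2 x y → y ≠ 0 →
      ∃ u : (RatFunc F)[X], cubK f ∣ (C x - C (rf d) * X) - u ^ 2) →
    (∀ P : EK (tw d f), ∃ Q : EK (tw d f), P = Q + Q) ∧ rk (tw d f) = 0

/-- TWF: the twists. -/
def TWFStmt : Prop :=
  ∀ (F : Type) [Field F] [Finite F], (2 : F) ≠ 0 → ∀ n : ℕ, 1 ≤ n →
    (∀ f ∈ Fm F n, Irreducible (cubK f) ∧ (cubK f).Separable ∧
      (∀ P : F[X], Irreducible P → ¬ P ^ 2 ∣ disc f.1 f.2.1 f.2.2) ∧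
      ∀ d ∈ ({1, pc 0, pc 1, pc 0 * pc 1} : Set F[X]), d ≠ 0 ∧ tw d f ∈ Ell F (n + 1)) ∧
    ∀ d : F[X], d ≠ 0 → Function.Injective (tw (F := F) d)

/-! ### Part 4: counting -/

/-- FB1: the fibre over a cubic of type `T12`, with a common isotropic vector. -/
def FB1Stmt : Prop :=
  ∀ (k : Type) [Field k] [Finite k], (2 : k) ≠ 0 → ∀ t : k × k × k, T12 t →
    2 * {B : Matrix (Fin 3) (Fin 3) k | B ∈ Fb t.1 t.2.1 t.2.2 ∧
      ∃ z : Fin 3 → k, z ≠ 0 ∧ bil (AA k) z z = 0 ∧ bil B z z = 0}.ncard ≤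
      Nat.card k ^ 3 - Nat.card k

/-- FB2: the fibre over a cubic without root. -/
def FB2Stmt : Prop :=
  ∀ (k : Type) [Field k] [Finite k], (2 : k) ≠ 0 → ∀ t : k × k × k, NR t →
    (Fb t.1 t.2.1 t.2.2).ncard ≤ Nat.card k ^ 3 - Nat.card k

/-- NU: upper bound for the number of matrices. -/
def NUStmt : Prop :=
  ∀ (F : Type) [Field F] [Finite F], (2 : F) ≠ 0 → ∀ S : Finset F[X],
    (∀ P ∈ S, P.Monic ∧ Irreducible P) → pc 0 ∉ S → pc 1 ∉ S → ∃ D : ℕ, ∀ n m : ℕ, m + D ≤ n →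
    ({B : Matrix (Fin 3) (Fin 3) F[X] | Bd n m B ∧ (∃ f ∈ Fm F n,
      (AA F[X] * B).charpoly = cubP f) ∧ TrivC 0 B ∧ TrivC 1 B}.ncard : ℝ) ≤
      (Nat.card F : ℝ) ^ (12 * n + 6) * (dd F S / 4 * (1 - 1 / (Nat.card F : ℝ) ^ 2) ^ 3) *
        ∏ P ∈ S, (1 - 1 / (Nat.card F : ℝ) ^ (2 * P.natDegree))

/-- DN: lower bound for the number of curves of the family. -/
def DNStmt : Prop :=
  ∀ (F : Type) [Field F] [Finite F], (2 : F) ≠ 0 → ∀ ε : ℝ, 0 < ε → ∃ D : ℕ,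
    ∀ S : Finset F[X], (∀ P ∈ S, P.Monic ∧ Irreducible P) → pc 0 ∉ S → pc 1 ∉ S →
    (∀ P : F[X], P.Monic → Irreducible P → P.natDegree ≤ D → P ≠ pc 0 → P ≠ pc 1 → P ∈ S) →
    ∃ N : ℕ, ∀ n : ℕ, N ≤ n → (Fm F n).Finite ∧
      (Nat.card F : ℝ) ^ (12 * n + 3) * (dd F S - ε) ≤ (Fm F n).ncard

/-- PR2: the density is bounded below. -/
def PR2Stmt : Prop :=
  ∀ (F : Type) [Field F] [Finite F], (2 : F) ≠ 0 → ∃ c : ℝ, 0 < c ∧ ∀ S : Finset F[X],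
    (∀ P ∈ S, P.Monic ∧ Irreducible P) → c ≤ dd F S

/-- AV: the average number of nontrivial classes is at most one half. -/
def AVStmt : Prop :=
  ∀ (F : Type) [Field F] [Finite F], (2 : F) ≠ 0 → (∃ δ : ℝ, 0 < δ ∧ ∃ N : ℕ, ∀ n : ℕ, N ≤ n →
      δ * (Nat.card F : ℝ) ^ (12 * n + 3) ≤ (Fm F n).ncard) ∧
    ∀ ε : ℝ, 0 < ε → ∃ N : ℕ, ∀ n : ℕ, N ≤ n → (Fm F n).Finite ∧
      ∑ᶠ f ∈ Fm F n, ((STR f).ncard : ℝ) ≤ (1 / 2 + ε) * (Fm F n).ncard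

/-- FI: the final statement. -/
def FIStmt : Prop :=
  ∀ (F : Type) [Field F] [Finite F], (2 : F) ≠ 0 → ∃ δ : ℝ, 0 < δ ∧ ∃ N : ℕ, ∀ n : ℕ, N ≤ n →
    (Ell F n).Finite ∧
    δ * (Ell F n).ncard ≤ {f ∈ Ell F n | rk f = 0}.ncard ∧
    δ * (Nat.card F : ℝ) ^ (12 * n + 3) ≤ {f ∈ Ell F n | rk f = 0}.ncard

end Pool.RZ
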