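import Pool.Agent.H14.AVS.S4
import Pool.Agent.H14.AVR.Final

/-!
# A positive proportion of the elliptic curves over `F(t)` has rank zero: definitions

`F` finite of odd order, `K = F(t)`, `f = (a, b, c)`, `E_f : y² = x³ + a x² + b x + c`.
The quadratic twist of `E_f` by `d` is `E_{tw d f}`.  The places `t = 0` and `t = 1` play a
special role.
-/

set_option autoImplicit false

namespace Pool.RZ

open Polynomial Matrix Pool.AVR Pool.AVS

section Defs

variable {F : Type} [Field F]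

/-- The cubic with coefficients `t` is the product of a linear polynomial and of an irreducible
quadratic polynomial. -/
def T12 {k : Type} [Field k] (t : k × k × k) : Prop :=
  ∃ e β γ : k, (∀ x : k, x ^ 2 + β * x + γ ≠ 0) ∧ t = (β - e, γ - e * β, -(e * γ))

/-- The cubic has no root. -/
def NR {k : Type} [Field k] (t : k × k × k) : Prop :=
  ∀ x : k, x ^ 3 + t.1 * x ^ 2 + t.2.1 * x + t.2.2 ≠ 0

/-- The coefficients at `t = c`. -/
noncomputable def evc (c : F) (f : F[X] × F[X] × F[X]) : F × F × F :=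
  (f.1.eval c, f.2.1.eval c, f.2.2.eval c)

/-- The top coefficients. -/
noncomputable def top3 (n : ℕ) (f : F[X] × F[X] × F[X]) : F × F × F :=
  (f.1.coeff (2 * n), f.2.1.coeff (4 * n), f.2.2.coeff (6 * n))

/-- The prime `t - c`. -/
noncomputable abbrev pc (c : F) : F[X] := X - C c

/-- The quadratic twist. -/
noncomputable def tw (d : F[X]) (f : F[X] × F[X] × F[X]) : F[X] × F[X] × F[X] :=
  (d * f.1, d ^ 2 * f.2.1, d ^ 3 * f.2.2)

/-- Integral polynomials as polynomials over `F(t)`. -/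
noncomputable abbrev lf (p : F[X][X]) : (RatFunc F)[X] := p.map (algebraMap F[X] (RatFunc F))

/-- A polynomial as an element of `F(t)`. -/
noncomputable abbrev rf (p : F[X]) : RatFunc F := algebraMap F[X] (RatFunc F) p

/-- `p` is a unit modulo `(P, f)`. -/
def UnP (P : F[X]) (f : F[X] × F[X] × F[X]) (p : F[X][X]) : Prop :=
  ∃ p' r : F[X][X], cubP f ∣ p * p' - 1 - C P * r

/-- At `P`, the class of `h` is the class of a unit. -/
def US (P : F[X]) (f : F[X] × F[X] × F[X]) (h : (RatFunc F)[X]) : Prop :=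
  ∃ (s : (RatFunc F)[X]) (p : F[X][X]), cubK f ∣ h * s ^ 2 - lf p ∧ UnP P f p

/-- At `P`, the class of `h` is trivial. -/
def TR (P : F[X]) (f : F[X] × F[X] × F[X]) (h : (RatFunc F)[X]) : Prop :=
  ∃ (s : (RatFunc F)[X]) (p : F[X][X]), cubK f ∣ h * s ^ 2 - lf (1 + C P * p)

/-- At `t = c`, the class of `h` is the nontrivial class of a unit. -/
def Minus (c : F) (f : F[X] × F[X] × F[X]) (h : (RatFunc F)[X]) : Prop :=
  ∃ (s : (RatFunc F)[X]) (p : F[X][X]) (e : F), cubK f ∣ h * s ^ 2 - lf p ∧ UnP (pc c) f p ∧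
    e ^ 3 + (evc c f).1 * e ^ 2 + (evc c f).2.1 * e + (evc c f).2.2 = 0 ∧
    ¬ IsSquare ((p.eval (C e)).eval c)

/-- At `t = c`, the class of `h` comes from a point with singular reduction of a ramified
twist. -/
def Sing (c : F) (f : F[X] × F[X] × F[X]) (h : (RatFunc F)[X]) : Prop :=
  ∃ (s : (RatFunc F)[X]) (u D v : F[X]) (i : ℕ),
    cubK f ∣ h * s ^ 2 - lf (C (pc c) * (C u - C D * X)) ∧ ¬ pc c ∣ D ∧ ¬ pc c ∣ v ∧
    u ^ 3 + f.1 * u ^ 2 * D + f.2.1 * u * D ^ 2 + f.2.2 * D ^ 3 = pc c ^ (2 * i + 1) * v ^ 2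

/-- The Gram matrix of `1, X, X²` for `τ(p q h)`, for the cubic `f`. -/
noncomputable abbrev g0 (f : F[X] × F[X] × F[X]) (h : (RatFunc F)[X]) :
    Matrix (Fin 3) (Fin 3) (RatFunc F) := gr0 (kf f).1 (kf f).2.1 (kf f).2.2 h

/-- The Gram matrix of `1, X, X²` for `τ(X p q h)`, for the cubic `f`. -/
noncomputable abbrev g1 (f : F[X] × F[X] × F[X]) (h : (RatFunc F)[X]) :
    Matrix (Fin 3) (Fin 3) (RatFunc F) := gr1 (kf f).1 (kf f).2.1 (kf f).2.2 h

/-- The symmetric matrix `G` has a unimodular lattice over `I`. -/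
def EL (I : Set (RatFunc F)) (G : Matrix (Fin 3) (Fin 3) (RatFunc F)) : Prop :=
  ∃ g : Matrix (Fin 3) (Fin 3) (RatFunc F), g.det ≠ 0 ∧ GI I (gᵀ * G * g)

/-- At `t = c`, the symmetric matrix `G` is, for some lattice, the orthogonal sum of a unit and of
`t - c` times an anisotropic form, modulo `t - c`. -/
def OA (c : F) (G : Matrix (Fin 3) (Fin 3) (RatFunc F)) : Prop :=
  ∃ g : Matrix (Fin 3) (Fin 3) (RatFunc F), g.det ≠ 0 ∧
    UI (IP (pc c)) ((gᵀ * G * g) 0 0) ∧
    (∀ i j, ¬ (i = 0 ∧ j = 0) → (gᵀ * G * g) i j / rf (pc c) ∈ IP (pc c)) ∧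
    ∀ x y : RatFunc F, x ∈ IP (pc c) → y ∈ IP (pc c) →
      ((gᵀ * G * g) 1 1 * x ^ 2 + 2 * (gᵀ * G * g) 1 2 * (x * y) + (gᵀ * G * g) 2 2 * y ^ 2) /
        rf (pc c) ^ 2 ∈ IP (pc c) → x / rf (pc c) ∈ IP (pc c) ∧ y / rf (pc c) ∈ IP (pc c)

/-- The matrix `B` at `t = c` and the antidiagonal form have a common isotropic vector. -/
def TrivC (c : F) (B : Matrix (Fin 3) (Fin 3) F[X]) : Prop :=
  ∃ z : Fin 3 → F, z ≠ 0 ∧ bil (AA F) z z = 0 ∧ bil (B.map (eval c)) z z = 0

/-- The nontrivial classes which are classes of units everywhere and trivial at `t = 0` and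
`t = 1`. -/
def STR (f : F[X] × F[X] × F[X]) : Set ((Alg f)ˣ ⧸ Sq f) :=
  {ξ | ξ ≠ 1 ∧ ∃ (u : (Alg f)ˣ) (h : (RatFunc F)[X]), (QuotientGroup.mk u : (Alg f)ˣ ⧸ Sq f) = ξ ∧
    (u : Alg f) = AdjoinRoot.mk (cubK f) h ∧
    IsSquare (Algebra.norm (RatFunc F) (AdjoinRoot.mk (cubK f) h)) ∧
    (∀ P : F[X], P.Monic → Irreducible P → P ≠ pc 0 → P ≠ pc 1 → US P f h) ∧
    TR (pc 0) f h ∧ TR (pc 1) f h}

end Defs

section Family

variable (F : Type) [Field F]

/-- The family: squarefree discriminant, linear times irreducible quadratic at `0` and `1`,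
irreducible at infinity. -/
def Fm (n : ℕ) : Set (F[X] × F[X] × F[X]) :=
  {f ∈ SF F n | T12 (evc 0 f) ∧ T12 (evc 1 f) ∧ NR (top3 n f)}

/-- The proportion of the cubics over `F` of type `T12`. -/
noncomputable def d12 : ℝ := ({t : F × F × F | T12 t}.ncard : ℝ) / (Nat.card F : ℝ) ^ 3

/-- The proportion of the cubics over `F` without root. -/
noncomputable def d3 : ℝ := ({t : F × F × F | NR t}.ncard : ℝ) / (Nat.card F : ℝ) ^ 3

/-- The density of the family, for the primes of `S`. -/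
noncomputable def dd (S : Finset F[X]) : ℝ :=
  d3 F * d12 F ^ 2 * ∏ P ∈ S, dens (AdjoinRoot (P ^ 2))

end Family

end Pool.RZ
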